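import Pool.Agent.R961.PercDef
import Pool.Agent.R961.Final

/-!
# MP_6e7106_pr: large-diameter clusters do not force giant components

The answer to Q1 is negative, already for tori. For `p = 47 / 48` there is a sequence of tori
`G_n = C_{a_n} × C_{b_n}` (so `d = 4`), with `b_n → ∞` and `a_n` exponentially large in `b_n`, such
that every vertex is, with probability more than `δ = 1 / 4`, in a component of diameter at least
`diam (G_n) / 2` (in the metric of `G_n`, hence also in the intrinsic metric of the component),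
while for every `C > 0` the probability that some component has at least `C |V_n|` vertices stays
below a constant smaller than `1` for all large `n`.

Idea. Let `u_b(l)` be the probability that a slab of `l` layers of the cylinder `ℤ × C_b` is crossed
lengthwise by an open path. A Peierls argument gives `u_b(4 ^ b) ≥ 9 / 10`, and `u_b(l) → 0` as
`l → ∞`, so there is `m ≥ 4 ^ b` with `u_b(m) ≥ 1 / 2 > u_b(m + 1)`; take `a = 3 m`.
* Fully open layers occur at distance about `p ^ (-b)`, much smaller than `m`, and crossing paths are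
  glued together along them. So a given vertex is joined to a vertex at distance `m` with
  probability at least `3 / 10`, and `diam ≤ 3 m / 2 + b / 2 ≤ 2 m`.
* By the same gluing, `1 - u_b(m + 1) > 1 / 2` forces `1 - u_b(m / J) ≥ 1 / (8 J)` for each fixed
  `J`. By independence, with probability at least `(1 / (8 J)) ^ (3 J)` none of `3 J` disjoint arcs
  of `m / J` layers of the torus is crossed, and then every component has at most
  `(4 / (3 J) + o(1)) |V|` vertices.
-/

set_option autoImplicit false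

open Filter Topology

namespace Pool.Agent.Results.MP_6e7106_pr.LongTori

open Pool.Agent.R961

/-- There are connected transitive `4`-regular finite graphs `G_n` with `|V_n| → ∞`, a constant
`δ > 0` and a `p` in `(0, 1)` such that every vertex of every `G_n` is with probability more than
`δ` in a component containing two vertices at distance at least `diam (G_n) / 2`, while for every
`C > 0` the probability that some component has at least `C |V_n|` vertices is at most a constant
`κ < 1` for all large `n`. -/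
theorem result :
    ∃ (V : ℕ → Type) (_ : ∀ n, Fintype (V n)) (G : ∀ n, SimpleGraph (V n)),
      (∀ n, (G n).Connected) ∧
      (∀ n v, {w | (G n).Adj v w}.ncard = 4) ∧
      (∀ n u v, ∃ φ : G n ≃g G n, φ u = v) ∧
      Tendsto (fun n => Fintype.card (V n)) atTop atTop ∧
      ∃ δ : ℝ, 0 < δ ∧ ∃ p : ℝ, 0 < p ∧ p < 1 ∧
        (∀ n v, δ < percProb (G n) p (fun H => ∃ u w, H.Reachable v u ∧ H.Reachable v w ∧
          ((G n).diam : ℝ) / 2 ≤ ((G n).dist u w : ℝ))) ∧
        ∀ C : ℝ, 0 < C → ∃ κ : ℝ, κ < 1 ∧ ∀ᶠ n in atTop,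
          percProb (G n) p (fun H => ∃ v, C * (Fintype.card (V n) : ℝ) ≤
            ({w | H.Reachable v w}.ncard : ℝ)) ≤ κ := by
  classical
  -- the width
  obtain ⟨N, hN⟩ : ∃ N : ℕ, ∀ b, N ≤ b → sb b ≤ 1 / 10 := by
    have h := sb_tendsto.eventually (gt_mem_nhds (by norm_num : (0 : ℝ) < 1 / 10))
    obtain ⟨N, hN⟩ := eventually_atTop.1 h
    exact ⟨N, fun b hb => (hN b hb).le⟩
  let B : ℕ → ℕ := fun n => n + N + 3
  have hB : ∀ n, NeZero (B n) := fun n => ⟨by show n + N + 3 ≠ 0; omega⟩
  have hB3 : ∀ n, 3 ≤ B n := fun n => by show 3 ≤ n + N + 3; omega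
  have hm : ∀ n, ∃ m : ℕ, 4 ^ B n ≤ m ∧ 1 / 2 ≤ @u p0 (B n) m (hB n) ∧
      @u p0 (B n) (m + 1) (hB n) < 1 / 2 := fun n => by
    have := hB n
    exact exists_len (b := B n) (by have := hB3 n; omega)
  choose m hm1 hm2 hm3 using hm
  have hbm : ∀ n, B n ≤ m n := fun n =>
    le_trans (Nat.lt_pow_self (by norm_num : 1 < 4)).le (hm1 n)
  have hA : ∀ n, NeZero (3 * m n) := fun n => ⟨by
    have := hbm n
    have := hB3 n
    omega⟩
  have hA3 : ∀ n, 3 ≤ 3 * m n := fun n => by
    have := hbm n
    have := hB3 n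
    omega
  refine ⟨fun n => ZMod (3 * m n) × ZMod (B n), fun n => by
    have := hA n
    have := hB n
    infer_instance, fun n => TG (3 * m n) (B n), ?_, ?_, ?_, ?_, 1 / 4, by norm_num, p0, ?_, ?_,
    ?_, ?_⟩
  · intro n
    have := hA n
    have := hB n
    exact TG_connected (hA3 n) (hB3 n)
  · intro n v
    exact TG_degree (hA3 n) (hB3 n) v
  · intro n u v
    exact TG_transitive (hA3 n) (hB3 n) u v
  · refine tendsto_atTop_mono (fun n => ?_) tendsto_id
    have := hA n
    have := hB n
    show n ≤ Fintype.card (ZMod (3 * m n) × ZMod (B n))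
    rw [Fintype.card_prod, ZMod.card, ZMod.card]
    have h1 : n ≤ B n := by show n ≤ n + N + 3; omega
    have h2 := hA3 n
    nlinarith
  · unfold p0; norm_num
  · unfold p0; norm_num
  · intro n v
    have := hA n
    have := hB n
    have h1 := far_prob (b := B n) (m := m n) (hB3 n) (hm1 n) (hm2 n)
      (hN _ (by show N ≤ n + N + 3; omega)) v
    rw [percProb_eq (TG (3 * m n) (B n)) p0 _ ed (ed_inj (hA3 n) (hB3 n))
      (range_ed (hA3 n) (hB3 n))]
    refine lt_of_lt_of_le (by norm_num) (h1.trans (Pr_mono p0_nonneg p0_le ?_))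
    rintro ω ⟨w, hw, hd⟩
    refine ⟨v, w, SimpleGraph.Reachable.refl _, hw, ?_⟩
    have hdiam : (TG (3 * m n) (B n)).diam ≤ 2 * m n := by
      obtain ⟨x, y, hxy⟩ := SimpleGraph.exists_dist_eq_diam (G := TG (3 * m n) (B n))
      rw [← hxy]
      have h3 := dist_le_half (hA3 n) (hB3 n) x y
      have h4 := hbm n
      omega
    have h5 : ((TG (3 * m n) (B n)).diam : ℝ) ≤ 2 * m n := by exact_mod_cast hdiam
    have h6 : (m n : ℝ) ≤ ((TG (3 * m n) (B n)).dist v w : ℝ) := by exact_mod_cast hd
    linarith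
  · intro C hC
    obtain ⟨J, hJ⟩ := exists_nat_gt (4 / C)
    have hJ0 : 0 < J := by
      have : (0 : ℝ) < J := lt_trans (by positivity) hJ
      exact_mod_cast this
    refine ⟨1 - (1 / (8 * (J : ℝ))) ^ (3 * J), ?_, ?_⟩
    · have : (0 : ℝ) < J := by exact_mod_cast hJ0
      have : (0 : ℝ) < (1 / (8 * (J : ℝ))) ^ (3 * J) := by positivity
      linarith
    · have hBt : Tendsto B atTop atTop := by
        refine tendsto_atTop_mono (fun n => ?_) tendsto_id
        show n ≤ n + N + 3
        omega
      have hs := (sb_tendsto.comp hBt).eventually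
        (gt_mem_nhds (by
          have : (0 : ℝ) < J := by exact_mod_cast hJ0
          positivity : (0 : ℝ) < 1 / (8 * J)))
      have hbig : ∀ᶠ n in atTop, 4 * J ≤ B n := hBt.eventually_ge_atTop _
      have hbig2 : ∀ᶠ n in atTop, (6 * J) / (2 * C) < (B n : ℝ) :=
        (tendsto_natCast_atTop_atTop.comp hBt).eventually_gt_atTop _
      filter_upwards [hs, hbig, hbig2] with n h1 h2 h3
      have := hA n
      have := hB n
      show percProb (TG (3 * m n) (B n)) p0 _ ≤ _
      rw [percProb_eq (TG (3 * m n) (B n)) p0 _ ed (ed_inj (hA3 n) (hB3 n))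
        (range_ed (hA3 n) (hB3 n))]
      refine le_trans (le_of_eq (Pr_congr fun ω => ?_)) (large_prob (b := B n) (m := m n) (C := C)
        (J := J) hJ0 hJ.le hC ?_ ?_ (hm3 n) (le_of_lt h1))
      · refine exists_congr fun v => ?_
        rw [Fintype.card_congr' rfl]
      · -- `2 J (2 ^ b + 1) ≤ 4 ^ b ≤ m`
        have h4 : B n < 2 ^ B n := Nat.lt_two_pow_self
        have h5 : (4 : ℕ) ^ B n = 2 ^ B n * 2 ^ B n := by
          rw [← mul_pow]; norm_num
        have h6 := hm1 n
        rw [h5] at h6
        have h7 : 2 * J * (2 ^ B n + 1) ≤ 2 ^ B n * 2 ^ B n := by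
          have h8 : 4 * J ≤ 2 ^ B n := by omega
          have h9 : 1 ≤ 2 ^ B n := Nat.one_le_two_pow
          nlinarith
        exact h7.trans h6
      · have h4 : (B n : ℝ) ≤ m n := by exact_mod_cast hbm n
        rw [div_lt_iff₀ (by positivity)] at h3
        nlinarith

/-- The statement asked about in Q1 is false. -/
theorem not_Q1 : ¬ ∀ (d : ℕ) (V : ℕ → Type) (_ : ∀ n, Fintype (V n))
    (G : ∀ n, SimpleGraph (V n)), (∀ n, (G n).Connected) →
    (∀ n v, {w | (G n).Adj v w}.ncard = d) → (∀ n u v, ∃ φ : G n ≃g G n, φ u = v) →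
    Tendsto (fun n => Fintype.card (V n)) atTop atTop →
    ∀ δ : ℝ, 0 < δ → ∃ C : ℝ, 0 < C ∧ ∀ p : ℝ, 0 ≤ p → p ≤ 1 →
      (∀ n v, δ < percProb (G n) p (fun H => ∃ u w, H.Reachable v u ∧ H.Reachable v w ∧
          ((G n).diam : ℝ) / 2 ≤ ((G n).dist u w : ℝ))) →
      Tendsto (fun n => percProb (G n) p (fun H => ∃ v, C * (Fintype.card (V n) : ℝ) ≤
            ({w | H.Reachable v w}.ncard : ℝ))) atTop (𝓝 1) := by
  intro hall
  obtain ⟨V, hV, G, h1, h2, h3, h4, δ, hδ, p, hp0, hp1, h5, h6⟩ := result
  obtain ⟨C, hC, h7⟩ := hall 4 V hV G h1 h2 h3 h4 δ hδ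
  obtain ⟨κ, hκ, h8⟩ := h6 C hC
  have h9 := h7 p hp0.le hp1.le h5
  exact absurd (le_of_tendsto h9 h8) (not_le.2 hκ)

end Pool.Agent.Results.MP_6e7106_pr.LongTori
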